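import Pool.Agent.helper84.LP.SpecP

/-!
# Row lp:BBC (MP_07c750_an): few bad cells
-/

open MeasureTheory Set

set_option autoImplicit false

namespace Pool.Agent.LP

noncomputable section

theorem BBC_RGmono {N κ a : ℝ} {T T' : Finset ℝ} (h : T' ⊆ T) (hT : RG N κ a T) : RG N κ a T' := by
  intro y R hR
  refine le_trans ?_ (hT y R hR)
  exact_mod_cast Finset.card_le_card (Finset.filter_subset_filter _ h)

/-- The frequencies of a bad slope. -/
theorem BBC_freq {C1 a η κ : ℝ} {G m : ℕ} {U : Set ℝ} (hm4 : 4 ≤ Real.exp (((G : ℝ) - 1) * m))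
    (hR : ∀ (D : Finset ℤ) (c x : ℝ), 1 ≤ c → c ≤ 4 → AR C1 a η G m D → RG (Real.exp (G * m)) κ a (D.image fun d : ℤ => c * ((d : ℝ) - x)))
    (X : ℝ) (hX : ¬ GD U C1 a η G m X) :
    ∃ T : Finset ℝ, RG (Real.exp (G * m)) κ a T ∧ (∀ t ∈ T, Real.exp (((G : ℝ) - 1) * m) / 4 ≤ |t| ∧ |t| ≤ 8 * C1 * Real.exp (G * m)) ∧
      Real.exp (-m) ≤ ∑ t ∈ T, ‖kk U X t‖ := by
  classical
  unfold GD at hX
  push Not at hX
  obtain ⟨D, c, hD, hc1, hc4, d, hd, hs⟩ := hX
  set F := D.filter (fun d' : ℤ => ((hG G m : ℕ) : ℤ) ≤ |d' - d|) with hF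
  refine ⟨F.image fun d' : ℤ => c * ((d' : ℝ) - d), ?_, ?_, ?_⟩
  · exact BBC_RGmono (Finset.image_subset_image (Finset.filter_subset _ _)) (hR D c d hc1 hc4 hD)
  · intro t ht
    obtain ⟨d', hd', rfl⟩ := Finset.mem_image.1 ht
    obtain ⟨h1, h2⟩ := Finset.mem_filter.1 hd'
    have h3 : ((hG G m : ℕ) : ℝ) ≤ |(d' : ℝ) - d| := by
      have : (((hG G m : ℕ) : ℤ) : ℝ) ≤ ((|d' - d| : ℤ) : ℝ) := by exact_mod_cast h2
      rw [Int.cast_abs, Int.cast_sub] at this
      exact_mod_cast this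
    have h4 : Real.exp (((G : ℝ) - 1) * m) / 2 - 1 < ((hG G m : ℕ) : ℝ) := by
      unfold hG
      exact Nat.sub_one_lt_floor _
    rw [abs_mul, abs_of_nonneg (by linarith : (0 : ℝ) ≤ c)]
    constructor
    · have h5 : |(d' : ℝ) - d| ≤ c * |(d' : ℝ) - d| := le_mul_of_one_le_left (abs_nonneg _) hc1
      linarith
    · have h6 : |(d' : ℝ) - d| ≤ 2 * (C1 * Real.exp (G * m)) := by
        calc |(d' : ℝ) - d| ≤ |(d' : ℝ)| + |(d : ℝ)| := abs_sub _ _
          _ ≤ 2 * (C1 * Real.exp (G * m)) := by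
            have := hD.1 d' h1
            have := hD.1 d hd
            linarith
      calc c * |(d' : ℝ) - d| ≤ 4 * (2 * (C1 * Real.exp (G * m))) :=
            mul_le_mul hc4 h6 (abs_nonneg _) (by norm_num)
        _ = 8 * C1 * Real.exp (G * m) := by ring
  · rw [Finset.sum_image]
    · exact hs.le
    · intro x _ y _ hxy
      have h7 : c * ((x : ℝ) - d) = c * ((y : ℝ) - d) := hxy
      have h8 : (x : ℝ) - d = (y : ℝ) - d := mul_left_cancel₀ (by linarith) h7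
      have h9 : (x : ℝ) = (y : ℝ) := by linarith
      exact_mod_cast h9

theorem BBC_proof (hBSP : BSP_stmt) (hRGG : RGG_stmt) : BBC_stmt := by
  classical
  intro C1 a η h β b G hC1 ha0 ha hη haη hG hb0 hb1 hexp
  obtain ⟨C, hC, hB⟩ := hBSP (8 * C1) (by linarith)
  have hG0 : (2 : ℝ) ≤ (G : ℝ) := by exact_mod_cast hG
  set κ : ℝ := 1 / (G : ℝ) + 3 * η / 2 with hκ
  obtain ⟨m0, hR⟩ := hRGG C1 a η κ G hC1 ha0 hη.le haη (by omega) (by rw [hκ]; linarith)
  set K0 : ℕ := ⌈4 / b⌉₊ + 1 with hK0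
  have hK0b : 4 / b ≤ (K0 : ℝ) - 1 := by
    rw [hK0]
    push_cast
    have := Nat.le_ceil (4 / b)
    linarith
  have hK0pos : 0 < K0 := by omega
  have hK0pos' : (1 : ℝ) ≤ (K0 : ℝ) := by exact_mod_cast hK0pos
  set A : ℝ := K0 * (4 * C * C1) with hA
  have hA0 : 0 < A := by positivity
  obtain ⟨m1, hm1⟩ := exists_nat_gt (Real.log A)
  refine ⟨max (max m0 m1) 2, ?_⟩
  intro m U K hm hU hU2 hvol hK
  have hm0 : m0 ≤ m := le_trans (le_trans (le_max_left _ _) (le_max_left _ _)) hm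
  have hm1' : (m1 : ℝ) ≤ (m : ℝ) := by exact_mod_cast (le_trans (le_trans (le_max_right _ _) (le_max_left _ _)) hm)
  have hm2 : (2 : ℝ) ≤ (m : ℝ) := by exact_mod_cast (le_trans (le_max_right _ _) hm)
  have hAm : A < Real.exp m := by
    rw [← Real.log_lt_iff_lt_exp hA0]
    linarith
  set N : ℝ := Real.exp (G * m) with hN
  have hN0 : 0 < N := Real.exp_pos _
  have hm4 : 4 ≤ Real.exp (((G : ℝ) - 1) * m) := by
    have h1 : (2 : ℝ) ≤ ((G : ℝ) - 1) * m := by nlinarith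
    have h2 : (4 : ℝ) ≤ Real.exp 2 := by
      have h3 : Real.exp 2 = Real.exp 1 * Real.exp 1 := by rw [← Real.exp_add]; norm_num
      have h4 := Real.exp_one_gt_d9
      rw [h3]
      nlinarith
    exact h2.trans (Real.exp_le_exp.2 h1)
  -- the frequencies
  have hfr : ∀ X : ℝ, ∃ T : Finset ℝ, ¬ GD U C1 a η G m X → (RG N κ a T ∧ (∀ t ∈ T, Real.exp (((G : ℝ) - 1) * m) / 4 ≤ |t| ∧ |t| ≤ 8 * C1 * N) ∧
      Real.exp (-m) ≤ ∑ t ∈ T, ‖kk U X t‖) := by
    intro X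
    by_cases hX : GD U C1 a η G m X
    · exact ⟨∅, fun h => absurd hX h⟩
    · obtain ⟨T, hT⟩ := BBC_freq (κ := κ) hm4 (fun D c x h1 h2 h3 => hR m D c x hm0 h1 h2 h3) X hX
      exact ⟨T, fun _ => hT⟩
  choose T hT using hfr
  -- the slopes
  have hKX : ∀ k : ℤ, ∃ X : ℝ, k ∈ K → ((k : ℝ) * (b / 4 * Real.exp (-(G * m))) ≤ X ∧ X < (k + 1) * (b / 4 * Real.exp (-(G * m))) ∧ |X| ≤ 1 / 16 ∧ ¬ GD U C1 a η G m X) := by
    intro k
    by_cases hk : k ∈ K
    · obtain ⟨X, hX⟩ := hK k hk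
      exact ⟨X, fun _ => hX⟩
    · exact ⟨0, fun h => absurd h hk⟩
  choose X hX using hKX
  set ξ : ℝ := b / 4 * Real.exp (-(G * m)) with hξ
  have hξ0 : 0 < ξ := by positivity
  have hξN : N * ξ = b / 4 := by
    rw [hξ, hN, Real.exp_neg]
    field_simp
  -- the largest class
  obtain ⟨r, hr, hcard⟩ : ∃ r : ℤ, r ∈ Finset.Ico (0 : ℤ) K0 ∧ K.card ≤ K0 * (K.filter fun k => k % (K0 : ℤ) = r).card := by
    by_contra hcon
    push Not at hcon
    have h1 : ∀ k ∈ K, k % (K0 : ℤ) ∈ Finset.Ico (0 : ℤ) K0 := by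
      intro k _
      rw [Finset.mem_Ico]
      exact ⟨Int.emod_nonneg _ (by omega), Int.emod_lt_of_pos _ (by omega)⟩
    have h2 := Finset.card_eq_sum_card_fiberwise h1
    have h3 : (Finset.Ico (0 : ℤ) K0).card = K0 := by simp
    have h4 : (K0 : ℕ) * K.card < K0 * K.card := by
      calc K0 * K.card = ∑ r ∈ Finset.Ico (0 : ℤ) K0, K0 * (K.filter fun k => k % (K0 : ℤ) = r).card := by
            rw [← Finset.mul_sum, ← h2]
        _ < ∑ _r ∈ Finset.Ico (0 : ℤ) K0, K.card := by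
            refine Finset.sum_lt_sum_of_nonempty ⟨0, ?_⟩ fun r hr => hcon r hr
            rw [Finset.mem_Ico]
            exact ⟨le_rfl, by exact_mod_cast hK0pos⟩
        _ = K0 * K.card := by
            rw [Finset.sum_const, h3, smul_eq_mul]
    exact lt_irrefl _ h4
  set Kr := K.filter fun k => k % (K0 : ℤ) = r with hKr
  have hsep : ∀ k ∈ Kr, ∀ k' ∈ Kr, k < k' → 1 ≤ N * (X k' - X k) := by
    intro k hk k' hk' hlt
    obtain ⟨h1, h2⟩ := Finset.mem_filter.1 hk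
    obtain ⟨h1', h2'⟩ := Finset.mem_filter.1 hk'
    have h3 : (K0 : ℤ) ∣ k' - k := by
      apply Int.ModEq.dvd
      show k % (K0 : ℤ) = k' % K0
      rw [h2, h2']
    have h4 : (K0 : ℤ) ≤ k' - k := Int.le_of_dvd (by omega) h3
    have h5 : (K0 : ℝ) ≤ (k' : ℝ) - k := by exact_mod_cast h4
    obtain ⟨g1, g2, -, -⟩ := hX k h1
    obtain ⟨g1', g2', -, -⟩ := hX k' h1'
    have h6 : ((K0 : ℝ) - 1) * ξ ≤ X k' - X k := by
      have : ((K0 : ℝ) - 1) * ξ ≤ ((k' : ℝ) - (k + 1)) * ξ := mul_le_mul_of_nonneg_right (by linarith) hξ0.le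
      nlinarith
    have h7 : 1 ≤ N * (((K0 : ℝ) - 1) * ξ) := by
      have h8 : N * (((K0 : ℝ) - 1) * ξ) = ((K0 : ℝ) - 1) * (b / 4) := by
        rw [← hξN]; ring
      rw [h8]
      calc (1 : ℝ) = 4 / b * (b / 4) := by field_simp
        _ ≤ ((K0 : ℝ) - 1) * (b / 4) := mul_le_mul_of_nonneg_right hK0b (by linarith)
    exact h7.trans (mul_le_mul_of_nonneg_left h6 hN0.le)
  have hsep' : ∀ k ∈ Kr, ∀ k' ∈ Kr, k ≠ k' → 1 ≤ N * |X k - X k'| := by
    intro k hk k' hk' hne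
    rcases lt_or_gt_of_ne hne with hlt | hlt
    · have := hsep k hk k' hk' hlt
      rw [abs_sub_comm]
      exact this.trans (mul_le_mul_of_nonneg_left (le_abs_self _) hN0.le)
    · have := hsep k' hk' k hk hlt
      exact this.trans (mul_le_mul_of_nonneg_left (le_abs_self _) hN0.le)
  have hinj : Set.InjOn X (Kr : Set ℤ) := by
    intro k hk k' hk' he
    by_contra hne
    have := hsep' k hk k' hk' hne
    rw [he, sub_self, abs_zero, mul_zero] at this
    linarith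
  set XX := Kr.image X with hXX
  have hXXc : XX.card = Kr.card := Finset.card_image_of_injOn hinj
  set T0 : ℝ := Real.exp (((G : ℝ) - 1) * m) / 4 with hT0
  have hT0N : T0 ≤ N := by
    have : Real.exp (((G : ℝ) - 1) * m) ≤ N := Real.exp_le_exp.2 (by nlinarith)
    have := Real.exp_pos (((G : ℝ) - 1) * m)
    rw [hT0]
    linarith
  have hmain := hB a κ N T0 (Real.exp (-m)) (C1 * Real.exp ((h + η - 1) * (G * m))) U XX T ha0 ha (by positivity) (by rw [hT0]; linarith) hT0N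
    (Real.exp_pos _).le hU hU2 hvol
    (by
      intro Y hY
      obtain ⟨k, hk, rfl⟩ := Finset.mem_image.1 hY
      obtain ⟨-, -, g3, g4⟩ := hX k (Finset.mem_filter.1 hk).1
      obtain ⟨f1, f2, -⟩ := hT (X k) g4
      exact ⟨g3, f1, f2⟩)
    (by
      intro Y hY Y' hY' hne
      obtain ⟨k, hk, rfl⟩ := Finset.mem_image.1 hY
      obtain ⟨k', hk', rfl⟩ := Finset.mem_image.1 hY'
      exact hsep' k hk k' hk' (fun he => hne (by rw [he])))
    (by
      intro Y hY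
      obtain ⟨k, hk, rfl⟩ := Finset.mem_image.1 hY
      obtain ⟨-, -, g3, g4⟩ := hX k (Finset.mem_filter.1 hk).1
      exact (hT (X k) g4).2.2)
  -- exponents
  have hGm : (0 : ℝ) < (G : ℝ) * m := by positivity
  have hs0 : (0 : ℝ) < 1 / 2 - a := by linarith
  have hNpow : N ^ (a + 2 * κ) = Real.exp ((a + 2 * κ) * (G * m)) := by
    rw [hN, ← Real.exp_mul]
    ring_nf
  have hNT : N / T0 = 4 * Real.exp m := by
    rw [hN, hT0]
    have : Real.exp (G * m) = Real.exp (((G : ℝ) - 1) * m) * Real.exp m := by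
      rw [← Real.exp_add]; ring_nf
    rw [this]
    field_simp
  rw [hNpow, hNT, hXXc] at hmain
  have hbound : (Kr.card : ℝ) ^ (1 / 2 - a) ≤ 4 * C * C1 * Real.exp ((a + h - 1 + 4 * η + 5 / G) * (G * m)) := by
    have h1 : (Kr.card : ℝ) ^ (1 / 2 - a) = (Kr.card : ℝ) ^ (1 / 2 - a) * Real.exp (-m) ^ 2 * Real.exp (2 * m) := by
      rw [mul_assoc, ← Real.exp_nat_mul, ← Real.exp_add]
      norm_num
    have h2 : Real.exp ((a + h - 1 + 4 * η + 5 / G) * (G * m)) = Real.exp ((h + η - 1) * (G * m)) * Real.exp ((a + 2 * κ) * (G * m)) * Real.exp m * Real.exp (2 * m) := by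
      rw [← Real.exp_add, ← Real.exp_add, ← Real.exp_add]
      congr 1
      rw [hκ]
      field_simp
      ring
    rw [h1, h2]
    calc (Kr.card : ℝ) ^ (1 / 2 - a) * Real.exp (-m) ^ 2 * Real.exp (2 * m)
        ≤ (C * (C1 * Real.exp ((h + η - 1) * (G * m))) * Real.exp ((a + 2 * κ) * (G * m)) * (4 * Real.exp m)) * Real.exp (2 * m) :=
          mul_le_mul_of_nonneg_right hmain (Real.exp_pos _).le
      _ = _ := by ring
  by_contra hcon
  push Not at hcon
  have h1 : Real.exp (β * (G * m)) / K0 < (Kr.card : ℝ) := by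
    rw [div_lt_iff₀ (by positivity)]
    have h2 : (K.card : ℝ) ≤ K0 * (Kr.card : ℝ) := by exact_mod_cast hcard
    linarith
  have h3 : (Real.exp (β * (G * m)) / K0) ^ (1 / 2 - a) ≤ (Kr.card : ℝ) ^ (1 / 2 - a) :=
    Real.rpow_le_rpow (by positivity) h1.le hs0.le
  have h4 : (Real.exp (β * (G * m)) / K0) ^ (1 / 2 - a) = Real.exp (β * (1 / 2 - a) * (G * m)) / (K0 : ℝ) ^ (1 / 2 - a) := by
    rw [Real.div_rpow (Real.exp_pos _).le (by positivity), ← Real.exp_mul]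
    ring_nf
  have h5 : (K0 : ℝ) ^ (1 / 2 - a) ≤ K0 := by
    calc (K0 : ℝ) ^ (1 / 2 - a) ≤ (K0 : ℝ) ^ (1 : ℝ) := Real.rpow_le_rpow_of_exponent_le hK0pos' (by linarith)
      _ = K0 := Real.rpow_one _
  have h6 : Real.exp (β * (1 / 2 - a) * (G * m)) / K0 ≤ 4 * C * C1 * Real.exp ((a + h - 1 + 4 * η + 5 / G) * (G * m)) := by
    refine le_trans ?_ (h3.trans hbound)
    rw [h4]
    exact div_le_div_of_nonneg_left (Real.exp_pos _).le (by positivity) h5
  rw [div_le_iff₀ (by positivity)] at h6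
  have h7 : Real.exp (β * (1 / 2 - a) * (G * m)) ≤ A * Real.exp ((a + h - 1 + 4 * η + 5 / G) * (G * m)) := by
    rw [hA]
    calc _ ≤ _ := h6
      _ = _ := by ring
  have h8 : Real.exp m * Real.exp ((a + h - 1 + 4 * η + 5 / G) * (G * m)) ≤ Real.exp (β * (1 / 2 - a) * (G * m)) := by
    rw [← Real.exp_add]
    apply Real.exp_le_exp.2
    have h9 : (m : ℝ) = 1 / (G : ℝ) * (G * m) := by field_simp
    have h10 : (m : ℝ) + (a + h - 1 + 4 * η + 5 / G) * (G * m) = (a + h - 1 + 4 * η + 6 / G) * (G * m) := by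
      field_simp
      ring
    rw [h10]
    exact mul_le_mul_of_nonneg_right (by linarith) hGm.le
  have h11 : A * Real.exp ((a + h - 1 + 4 * η + 5 / G) * (G * m)) < Real.exp m * Real.exp ((a + h - 1 + 4 * η + 5 / G) * (G * m)) :=
    mul_lt_mul_of_pos_right hAm (Real.exp_pos _)
  linarith

end

end Pool.Agent.LP
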